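import Pool.Agent.Lib.Sieve.Averages
import Pool.Agent.Lib.PNT.PNT

/-!
# Squares of the form `k φ(n - k)` in residue classes (MP_030a1d_nt)

Q1 asks whether for every `n > 1` with `n ∉ {4, 7, 60, 199, 267}` there is `0 < k < n` such that
`k φ(n - k)` is a square. We show that in every residue class `a` modulo `q` this holds for at least
`c x log log x / log x` of the integers `n ≤ x`, for some `c > 0` and all large `x`. We use
`n = m + q² φ(m)`, `k = q² φ(m)`, with `m = c p`, where `c = a + q (j + 1)`, `j < J`, and `p = 1`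
modulo `q` is a prime; `J` grows like a power of `log x`. The prime number theorem for arithmetic
progressions (`Lib/PNT`) and the Brun-Hooley sieve (`Lib/Sieve`, for the coincidences) are used.
-/

set_option autoImplicit false

open Finset

namespace Pool.Agent.Results.MP_030a1d_nt.AdmissibleInClasses

open Pool.Agent.Lib.Sieve Pool.Agent.Lib.PNT

/-- `n` has the property asked for in Q1: there is an integer `k` with `0 < k < n` such that
`k φ(n - k)` is a square. -/
def Good (n : ℕ) : Prop := ∃ k : ℕ, 0 < k ∧ k < n ∧ IsSquare (k * Nat.totient (n - k))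

open Classical in
/-- The number of integers `1 ≤ n ≤ x` with `n ≡ a` modulo `q` and with the property asked for
in Q1. -/
noncomputable def goodCount (q a x : ℕ) : ℕ :=
  ((Finset.Icc 1 x).filter fun n => n ≡ a [MOD q] ∧ Good n).card

open Classical in
/-- The numbers `n ≤ x` of the form `p A - B` with a prime `p > z`, `p = 1` modulo `q`. -/
noncomputable def S (q x z A B : ℕ) : Finset ℕ :=
  (Finset.Icc 1 x).filter fun n => ∃ p : ℕ, p.Prime ∧ z < p ∧ (p : ZMod q) = 1 ∧ n + B = p * A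

theorem mem_S {q x z A B n : ℕ} : n ∈ S q x z A B ↔ (1 ≤ n ∧ n ≤ x) ∧
    ∃ p : ℕ, p.Prime ∧ z < p ∧ (p : ZMod q) = 1 ∧ n + B = p * A := by
  classical
  unfold S
  rw [Finset.mem_filter, Finset.mem_Icc]

theorem good_of_S {q x z c n : ℕ} (hq : 1 ≤ q) (hc : 1 ≤ c) (hz : c ≤ z)
    (h : n ∈ S q x z (c + q ^ 2 * c.totient) (q ^ 2 * c.totient)) :
    n ≡ c [MOD q] ∧ Good n := by
  obtain ⟨⟨h1, h2⟩, p, hp, hzp, hpq, he⟩ := mem_S.1 h
  obtain ⟨b, rfl⟩ : ∃ b, p = b + 1 := ⟨p - 1, by have := hp.two_le; omega⟩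
  have hb : 0 < b := by have := hp.two_le; omega
  have hn : n = c * (b + 1) + q ^ 2 * c.totient * b := by nlinarith
  have hcop : Nat.Coprime c (b + 1) := by
    rw [Nat.coprime_comm]
    exact (Nat.Prime.coprime_iff_not_dvd hp).2 (fun hd => by
      have := Nat.le_of_dvd (by omega) hd
      omega)
  have ht : 0 < c.totient := Nat.totient_pos.2 hc
  constructor
  · rw [← ZMod.natCast_eq_natCast_iff, hn]
    push_cast
    push_cast at hpq
    have hb0 : (b : ZMod q) = 0 := by linear_combination hpq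
    rw [hb0]
    ring
  · refine ⟨q ^ 2 * c.totient * b, by positivity, by rw [hn]; nlinarith, ?_⟩
    have h5 : n - q ^ 2 * c.totient * b = c * (b + 1) := by omega
    rw [h5, Nat.totient_mul hcop, Nat.totient_prime hp]
    exact ⟨q * c.totient * b, by
      have : b + 1 - 1 = b := by omega
      rw [this]
      ring⟩

theorem card_S (q x z A B : ℕ) (hAB : B < A) :
    piP (fun p => (p : ZMod q) = 1) ((x / A : ℕ) : ℝ) ≤ (S q x z A B).card + (z + 1) := by
  classical
  set y := x / A with hy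
  set A₀ : Finset ℕ := (Finset.Ioc 0 y).filter fun p => p.Prime ∧ (p : ZMod q) = 1 with hA₀
  have hpi : piP (fun p => (p : ZMod q) = 1) ((y : ℕ) : ℝ) = A₀.card := by
    unfold piP
    rw [Nat.floor_natCast]
  set A₁ : Finset ℕ := A₀.filter fun p => z < p with hA₁
  have hsub : A₀ ⊆ A₁ ∪ Finset.range (z + 1) := by
    intro p hp
    simp only [Finset.mem_union, hA₁, Finset.mem_filter, Finset.mem_range]
    by_cases h : z < p
    · exact Or.inl ⟨hp, h⟩
    · exact Or.inr (by omega)
  have hmem : ∀ p ∈ A₁, p.Prime ∧ (p : ZMod q) = 1 ∧ p ≤ y ∧ z < p := by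
    intro p hp
    simp only [hA₁, hA₀, Finset.mem_filter, Finset.mem_Ioc] at hp
    exact ⟨hp.1.2.1, hp.1.2.2, hp.1.1.2, hp.2⟩
  have h1 : A₁.card ≤ (S q x z A B).card := by
    apply Finset.card_le_card_of_injOn (fun p => p * A - B)
    · intro p hp
      obtain ⟨hpp, hpq, hpy, hzp⟩ := hmem p hp
      have h2 := hpp.two_le
      have h4 : p * A ≤ x := (Nat.le_div_iff_mul_le (by omega)).1 hpy
      have h5 : 2 * A ≤ p * A := Nat.mul_le_mul_right _ h2
      show p * A - B ∈ S q x z A B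
      rw [mem_S]
      exact ⟨⟨by omega, by omega⟩, p, hpp, hzp, hpq, by omega⟩
    · intro p hp p' hp' he
      obtain ⟨hpp, _, _, _⟩ := hmem p hp
      obtain ⟨hpp', _, _, _⟩ := hmem p' hp'
      have h5 : 2 * A ≤ p * A := Nat.mul_le_mul_right _ hpp.two_le
      have h6 : 2 * A ≤ p' * A := Nat.mul_le_mul_right _ hpp'.two_le
      have he' : p * A - B = p' * A - B := he
      have h7 : p * A = p' * A := by omega
      exact Nat.eq_of_mul_eq_mul_right (by omega) h7
  rw [hpi]
  calc A₀.card ≤ (A₁ ∪ Finset.range (z + 1)).card := Finset.card_le_card hsub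
    _ ≤ A₁.card + (Finset.range (z + 1)).card := Finset.card_union_le _ _
    _ ≤ (S q x z A B).card + (z + 1) := by
        rw [Finset.card_range]
        omega

/-- `∏_{p ≤ P} (1 - 1/p)`. -/
noncomputable def W (P : ℕ) : ℝ := ∏ p ∈ primesUpTo P, (1 - 1 / (p : ℝ))

theorem W_pos (P : ℕ) : 0 < W P := by
  unfold W
  apply Finset.prod_pos
  intro p hp
  have h2 : (2 : ℝ) ≤ p := by exact_mod_cast (mem_primesUpTo.1 hp).1.two_le
  rw [sub_pos, div_lt_one (by linarith)]
  linarith

theorem W_ge (P : ℕ) : 1 / ((P : ℝ) + 1) ≤ W (P + 1) := by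
  classical
  induction P with
  | zero =>
    have h : primesUpTo (0 + 1) = ∅ := by
      ext p
      rw [mem_primesUpTo]
      constructor
      · rintro ⟨h1, h2⟩
        have := h1.two_le
        omega
      · intro h
        simp at h
    unfold W
    rw [h]
    simp
  | succ P ih =>
    by_cases hp : (P + 1 + 1).Prime
    · have h1 : primesUpTo (P + 1 + 1) = insert (P + 1 + 1) (primesUpTo (P + 1)) := by
        ext p
        simp only [Finset.mem_insert, mem_primesUpTo]
        constructor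
        · rintro ⟨h1, h2⟩
          rcases Nat.eq_or_lt_of_le h2 with h3 | h3
          · exact Or.inl h3
          · exact Or.inr ⟨h1, by omega⟩
        · rintro (h1 | ⟨h1, h2⟩)
          · rw [h1]
            exact ⟨hp, le_rfl⟩
          · exact ⟨h1, by omega⟩
      have h2 : P + 1 + 1 ∉ primesUpTo (P + 1) := by
        rw [mem_primesUpTo]
        omega
      unfold W
      rw [h1, Finset.prod_insert h2]
      have h3 : (1 : ℝ) / ((P : ℝ) + 1) ≤ W (P + 1) := ih
      have h4 : 0 ≤ 1 - 1 / (((P + 1 + 1 : ℕ) : ℕ) : ℝ) := by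
        push_cast
        have hP : (0 : ℝ) ≤ P := Nat.cast_nonneg P
        rw [sub_nonneg, div_le_one (by linarith)]
        linarith
      have h5 := mul_le_mul_of_nonneg_left h3 h4
      unfold W at h5
      refine le_trans (le_of_eq ?_) h5
      push_cast
      have hP1 : (P : ℝ) + 1 ≠ 0 := by positivity
      have hP2 : (P : ℝ) + 1 + 1 ≠ 0 := by positivity
      field_simp
      ring
    · have h1 : primesUpTo (P + 1 + 1) = primesUpTo (P + 1) := by
        ext p
        simp only [mem_primesUpTo]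
        constructor
        · rintro ⟨h1, h2⟩
          refine ⟨h1, ?_⟩
          rcases Nat.eq_or_lt_of_le h2 with h3 | h3
          · rw [h3] at h1
            exact absurd h1 hp
          · omega
        · rintro ⟨h1, h2⟩
          exact ⟨h1, by omega⟩
      unfold W
      rw [h1]
      refine le_trans ?_ ih
      push_cast
      apply one_div_le_one_div_of_le (by positivity)
      linarith

theorem prod_tail (P z : ℕ) (hz : 2 ≤ z) (hP : P ≤ z) :
    ∏ p ∈ sprimes P z, (1 - 1 / (p : ℝ)) ≤ 1 / (W P * Real.log z) := by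
  classical
  have h1 := prod_one_sub_inv_le z hz
  have h2 : ∏ p ∈ primesUpTo z, (1 - 1 / (p : ℝ)) =
      (∏ p ∈ sprimes P z, (1 - 1 / (p : ℝ))) * W P := by
    unfold W sprimes
    rw [← Finset.prod_filter_mul_prod_filter_not (primesUpTo z) (fun p => P < p)]
    congr 1
    apply Finset.prod_congr _ (fun _ _ => rfl)
    ext p
    simp only [Finset.mem_filter, mem_primesUpTo]
    constructor
    · rintro ⟨⟨a, b⟩, c⟩
      exact ⟨a, by omega⟩
    · rintro ⟨a, b⟩
      exact ⟨⟨a, by omega⟩, by omega⟩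
  rw [h2] at h1
  have hlog : 0 < Real.log z := Real.log_pos (by
    have : (2 : ℝ) ≤ z := by exact_mod_cast hz
    linarith)
  have hW := W_pos P
  rw [le_div_iff₀ (by positivity)]
  rw [le_div_iff₀ hlog] at h1
  linarith

/-- Coincidences, by the sieve. -/
theorem inter_S (q x z A B A' B' P : ℕ) (hz : 2 ≤ z) (hP6 : 6 ≤ P) (hP : P ≤ z)
    (hx : z ^ 422 ≤ x) (hne : B ≠ B') (hAB : B < A) (hAB' : B' < A') (h2 : A ≤ P) (h2' : A' ≤ P) :
    ((S q x z A B ∩ S q x z A' B').card : ℝ) ≤ 3 * x * (1 / (W P * Real.log z)) ^ 2 := by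
  classical
  set Ω : (p : ℕ) → Finset (ZMod p) := fun p =>
    if P < p then {-(B : ZMod p), -(B' : ZMod p)} else ∅ with hΩ
  have hcard : ∀ p, (Ω p).card ≤ 2 := by
    intro p
    simp only [hΩ]
    split_ifs
    · exact Finset.card_le_two
    · simp
  have hf := (fundamental_sum (k := 2) (z := z) (Ω := Ω) hz (fun p _ _ _ => hcard p) 1 x
    (by simpa using hx)).2
  have hset : (2 * 2 + 2 : ℕ) = 6 := by norm_num
  rw [hset] at hf
  -- lower bound of the sum
  have hlow : ((S q x z A B ∩ S q x z A' B').card : ℝ) ≤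
      ∑ u ∈ Finset.Ico (1 : ℤ) (1 + x), ∏ p ∈ sprimes 6 z, (1 - chi Ω p u) := by
    set T : Finset ℤ := (S q x z A B ∩ S q x z A' B').image (fun n : ℕ => (n : ℤ)) with hT
    have hTc : T.card = (S q x z A B ∩ S q x z A' B').card :=
      Finset.card_image_of_injective _ Nat.cast_injective
    have hTsub : T ⊆ Finset.Ico (1 : ℤ) (1 + x) := by
      intro u hu
      rw [hT, Finset.mem_image] at hu
      obtain ⟨n, hn, rfl⟩ := hu
      have := (mem_S.1 (Finset.mem_inter.1 hn).1).1
      rw [Finset.mem_Ico]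
      constructor
      · exact_mod_cast this.1
      · have h5 : (n : ℤ) ≤ x := by exact_mod_cast this.2
        linarith
    have hterm : ∀ u ∈ T, ∏ p ∈ sprimes 6 z, (1 - chi Ω p u) = 1 := by
      intro u hu
      rw [hT, Finset.mem_image] at hu
      obtain ⟨n, hn, rfl⟩ := hu
      obtain ⟨hn1, hn2⟩ := Finset.mem_inter.1 hn
      obtain ⟨_, r, hr, hzr, _, her⟩ := mem_S.1 hn1
      obtain ⟨_, r', hr', hzr', _, her'⟩ := mem_S.1 hn2
      apply Finset.prod_eq_one
      intro p hp
      obtain ⟨hpp, hp6, hpz⟩ := mem_sprimes.1 hp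
      have key : ∀ A B t : ℕ, t.Prime → z < t → B < A → A ≤ P → n + B = t * A →
          P < p → ((n : ℤ) : ZMod p) ≠ -(B : ZMod p) := by
        intro A B t ht hzt hs1 hsP he hPp h
        have h3 : ((n + B : ℕ) : ZMod p) = 0 := by
          push_cast
          push_cast at h
          rw [h]
          ring
        rw [ZMod.natCast_eq_zero_iff, he] at h3
        rcases (Nat.Prime.dvd_mul hpp).1 h3 with h4 | h4
        · have := (Nat.prime_dvd_prime_iff_eq hpp ht).1 h4
          omega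
        · have := Nat.le_of_dvd (by omega) h4
          omega
      have hchi : chi Ω p (n : ℤ) = 0 := by
        unfold chi
        rw [if_neg]
        simp only [hΩ]
        split_ifs with hPp
        · simp only [Finset.mem_insert, Finset.mem_singleton, not_or]
          exact ⟨key A B r hr hzr hAB h2 her hPp, key A' B' r' hr' hzr' hAB' h2' her' hPp⟩
        · simp
      rw [hchi]
      norm_num
    calc ((S q x z A B ∩ S q x z A' B').card : ℝ) = ∑ u ∈ T, (1 : ℝ) := by
          rw [Finset.sum_const, hTc]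
          simp
      _ = ∑ u ∈ T, ∏ p ∈ sprimes 6 z, (1 - chi Ω p u) :=
          (Finset.sum_congr rfl hterm).symm
      _ ≤ _ := Finset.sum_le_sum_of_subset_of_nonneg hTsub (fun u _ _ =>
          Finset.prod_nonneg fun p _ => by
            have := chi_le_one Ω p u
            linarith)
  refine hlow.trans (hf.trans ?_)
  apply mul_le_mul_of_nonneg_left _ (by positivity)
  -- the density product
  have hcard2 : ∀ p, P < p → (Ω p).card = 2 := by
    intro p hPp
    simp only [hΩ, if_pos hPp]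
    apply Finset.card_pair
    intro h
    rw [neg_inj, ZMod.natCast_eq_natCast_iff', Nat.mod_eq_of_lt (by omega),
      Nat.mod_eq_of_lt (by omega)] at h
    omega
  have hd : ∀ p ∈ sprimes 6 z, 1 - dens Ω p ≤ if P < p then (1 - 1 / (p : ℝ)) ^ 2 else 1 := by
    intro p hp
    obtain ⟨hpp, hp6, hpz⟩ := mem_sprimes.1 hp
    split_ifs with hPp
    · unfold Lib.Sieve.dens
      rw [hcard2 p hPp]
      have hp0 : (0 : ℝ) < p := by exact_mod_cast hpp.pos
      have : (1 - 1 / (p : ℝ)) ^ 2 = 1 - 2 / p + (1 / p) ^ 2 := by ring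
      rw [this]
      push_cast
      have := sq_nonneg (1 / (p : ℝ))
      linarith
    · have := dens_nonneg (Ω := Ω) p
      linarith
  have hd0 : ∀ p ∈ sprimes 6 z, 0 ≤ 1 - dens Ω p := by
    intro p hp
    have hp' := mem_sprimes.1 hp
    have := dens_le_half (k := 2) (hcard p) (by omega)
    linarith
  calc ∏ p ∈ sprimes 6 z, (1 - dens Ω p)
      ≤ ∏ p ∈ sprimes 6 z, (if P < p then (1 - 1 / (p : ℝ)) ^ 2 else 1) :=
        Finset.prod_le_prod hd0 hd
    _ = ∏ p ∈ sprimes P z, (1 - 1 / (p : ℝ)) ^ 2 := by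
        rw [← Finset.prod_filter]
        apply Finset.prod_congr _ (fun _ _ => rfl)
        ext p
        simp only [Finset.mem_filter, mem_sprimes]
        constructor
        · rintro ⟨⟨a, b, c⟩, d⟩
          exact ⟨a, d, c⟩
        · rintro ⟨a, b, c⟩
          exact ⟨⟨a, by omega, c⟩, b⟩
    _ = (∏ p ∈ sprimes P z, (1 - 1 / (p : ℝ))) ^ 2 := by rw [Finset.prod_pow]
    _ ≤ (1 / (W P * Real.log z)) ^ 2 := by
        apply pow_le_pow_left₀ _ (prod_tail P z hz hP)
        apply Finset.prod_nonneg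
        intro p hp
        have h5 : (2 : ℝ) ≤ p := by exact_mod_cast (mem_sprimes.1 hp).1.two_le
        rw [sub_nonneg, div_le_one (by linarith)]
        linarith

/-- Bonferroni's inequality. -/
theorem bonf {ι : Type} [DecidableEq ι] (T : ι → Finset ℕ) (B : ℝ) (hB : 0 ≤ B) (F : Finset ι)
    (h : ∀ a ∈ F, ∀ b ∈ F, a ≠ b → ((T a ∩ T b).card : ℝ) ≤ B) :
    ∑ a ∈ F, ((T a).card : ℝ) ≤ ((F.biUnion T).card : ℝ) + (F.card : ℝ) ^ 2 * B := by
  induction F using Finset.induction_on with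
  | empty => simp
  | insert a F ha ih =>
    have ih' := ih (fun b hb c hc => h b (Finset.mem_insert_of_mem hb) c
      (Finset.mem_insert_of_mem hc))
    rw [Finset.sum_insert ha, Finset.biUnion_insert, Finset.card_insert_of_notMem ha]
    have h1 : ((T a ∪ F.biUnion T).card : ℝ) + ((T a ∩ F.biUnion T).card : ℝ) =
        ((T a).card : ℝ) + ((F.biUnion T).card : ℝ) := by
      exact_mod_cast Finset.card_union_add_card_inter (T a) (F.biUnion T)
    have h2 : ((T a ∩ F.biUnion T).card : ℝ) ≤ F.card * B := by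
      rw [Finset.inter_biUnion]
      have h3 : ((F.biUnion fun x => T a ∩ T x).card : ℝ) ≤ ∑ x ∈ F, ((T a ∩ T x).card : ℝ) := by
        exact_mod_cast Finset.card_biUnion_le
      refine h3.trans ?_
      rw [← nsmul_eq_mul]
      apply Finset.sum_le_card_nsmul
      intro x hx
      exact h a (Finset.mem_insert_self _ _) x (Finset.mem_insert_of_mem hx)
        (fun hax => ha (hax ▸ hx))
    push_cast
    have h4 : 0 ≤ (F.card : ℝ) * B := by positivity
    nlinarith

/-- Two families with the same `B`: no coincidences. -/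
theorem inter_S_same (q x z A A' B : ℕ) (hne : A ≠ A') (h1' : 1 ≤ A')
    (h2' : A' ≤ z) : S q x z A B ∩ S q x z A' B = ∅ := by
  rw [← Finset.not_nonempty_iff_eq_empty]
  rintro ⟨n, hn⟩
  obtain ⟨hn1, hn2⟩ := Finset.mem_inter.1 hn
  obtain ⟨_, r, hr, hzr, _, her⟩ := mem_S.1 hn1
  obtain ⟨_, r', hr', hzr', _, her'⟩ := mem_S.1 hn2
  have h3 : r * A = r' * A' := by omega
  have h4 : r ∣ r' * A' := ⟨A, h3.symm⟩
  rcases (Nat.Prime.dvd_mul hr).1 h4 with h5 | h5
  · have h6 := (Nat.prime_dvd_prime_iff_eq hr hr').1 h5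
    rw [h6] at h3
    exact hne (Nat.eq_of_mul_eq_mul_left hr'.pos h3)
  · have := Nat.le_of_dvd (by omega) h5
    omega

/-- A lower bound for the number of primes `p = 1` modulo `q`. -/
theorem pi_lower (q : ℕ) [NeZero q] : ∃ κ : ℝ, 0 < κ ∧ ∃ N : ℕ, ∀ n : ℕ, N ≤ n →
    κ * n ≤ (piP (fun p => (p : ZMod q) = 1) (n : ℝ) : ℝ) * Real.log n := by
  have h := piAP_tendsto (q := q) (a := 1) isUnit_one
  have hφ : (0 : ℝ) < (q.totient : ℝ)⁻¹ :=
    inv_pos.mpr (by exact_mod_cast q.totient.pos_of_neZero)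
  have h1 := h.eventually (lt_mem_nhds (show (q.totient : ℝ)⁻¹ / 2 < (q.totient : ℝ)⁻¹ by linarith))
  obtain ⟨T, hT⟩ := Filter.eventually_atTop.1 h1
  refine ⟨(q.totient : ℝ)⁻¹ / 2, by linarith, ⌈max T 1⌉₊, fun n hn => ?_⟩
  have hn' : max T 1 ≤ (n : ℝ) := (Nat.le_ceil _).trans (by exact_mod_cast hn)
  have h2 := hT (n : ℝ) ((le_max_left _ _).trans hn')
  have h3 : (0 : ℝ) < n := by linarith [(le_max_right T 1).trans hn']
  rw [lt_div_iff₀ h3] at h2
  exact h2.le

/-- The constant `c` of family `j`. -/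
def cc (q a j : ℕ) : ℕ := a + q * (j + 1)

/-- The constant `B` of family `j`. -/
def BB (q a j : ℕ) : ℕ := q ^ 2 * (cc q a j).totient

/-- The constant `A` of family `j`. -/
def AA (q a j : ℕ) : ℕ := cc q a j + q ^ 2 * (cc q a j).totient

theorem AA_le (q a j : ℕ) : AA q a j ≤ (a + q) * (1 + q ^ 2) * (j + 1) := by
  unfold AA
  have h3 : (cc q a j).totient ≤ cc q a j := Nat.totient_le _
  have h4 : cc q a j ≤ (a + q) * (j + 1) := by
    unfold cc
    nlinarith
  calc cc q a j + q ^ 2 * (cc q a j).totient ≤ cc q a j + q ^ 2 * cc q a j := by gcongr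
    _ = (1 + q ^ 2) * cc q a j := by ring
    _ ≤ (1 + q ^ 2) * ((a + q) * (j + 1)) := by gcongr
    _ = _ := by ring

/-- The reciprocal sum of the families. -/
theorem sum_fams (q a J : ℕ) (hq : 1 ≤ q) :
    Real.log ((J : ℝ) + 1) / (((a + q) * (1 + q ^ 2) : ℕ) : ℝ) ≤
      ∑ j ∈ Finset.range J, (1 / (AA q a j : ℝ)) := by
  set E : ℕ := (a + q) * (1 + q ^ 2) with hE
  have hE0 : 0 < E := by
    rw [hE]
    positivity
  have hE0' : (0 : ℝ) < E := by exact_mod_cast hE0
  have h1 := log_add_one_le_harmonic J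
  have h2 : ((harmonic J : ℚ) : ℝ) = ∑ j ∈ Finset.range J, (1 / ((j : ℝ) + 1)) := by
    unfold harmonic
    push_cast
    apply Finset.sum_congr rfl
    intro j _
    rw [one_div]
  rw [h2] at h1
  rw [div_le_iff₀ hE0', Finset.sum_mul]
  have h1' : Real.log ((J : ℝ) + 1) ≤ ∑ j ∈ Finset.range J, (1 / ((j : ℝ) + 1)) := by
    push_cast at h1
    exact h1
  refine h1'.trans (Finset.sum_le_sum fun j _ => ?_)
  have hA0 : 0 < AA q a j := by
    unfold AA cc
    nlinarith [Nat.zero_le (q ^ 2 * (a + q * (j + 1)).totient)]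
  have hA0' : (0 : ℝ) < AA q a j := by exact_mod_cast hA0
  have hA' : (AA q a j : ℝ) ≤ (E : ℝ) * ((j : ℝ) + 1) := by exact_mod_cast AA_le q a j
  rw [one_div_mul_eq_div, div_le_div_iff₀ (by positivity) hA0']
  linarith

/-- The level condition `z ^ 422 ≤ x`. -/
def Lev (z x : ℕ) : Prop := z ^ 422 ≤ x

theorem exists_z (Z x : ℕ) (hZ : 2 ≤ Z) (hx : Z ^ 422 ≤ x) :
    ∃ z, Z ≤ z ∧ Lev z x ∧ z ^ 5 ≤ x ∧ Real.log x ≤ 844 * Real.log z := by
  have key : ∀ e : ℕ, 5 ≤ e → Z ^ e ≤ x → ∃ z, Z ≤ z ∧ z ^ e ≤ x ∧ z ^ 5 ≤ x ∧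
      Real.log x ≤ (2 * e : ℕ) * Real.log z := by
    intro e he hx
    have hZx : Z ≤ x := le_trans (by
      calc Z = Z ^ 1 := (pow_one Z).symm
        _ ≤ Z ^ e := Nat.pow_le_pow_right (by omega) (by omega)) hx
    have h1 : Z ≤ Nat.findGreatest (fun z => z ^ e ≤ x) x := Nat.le_findGreatest hZx hx
    have h2 : (Nat.findGreatest (fun z => z ^ e ≤ x) x) ^ e ≤ x :=
      Nat.findGreatest_spec (P := fun z => z ^ e ≤ x) hZx hx
    set z := Nat.findGreatest (fun z => z ^ e ≤ x) x with hz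
    have h5 : x < (z + 1) ^ e := by
      by_contra hcon
      have h3 : (z + 1) ^ e ≤ x := by omega
      have h4 : z + 1 ≤ x := le_trans (by
        calc z + 1 = (z + 1) ^ 1 := (pow_one _).symm
          _ ≤ (z + 1) ^ e := Nat.pow_le_pow_right (by omega) (by omega)) h3
      exact Nat.findGreatest_is_greatest (P := fun z => z ^ e ≤ x) (k := z + 1)
        (by rw [← hz]; omega) h4 h3
    have h3x : z ^ 5 ≤ x := le_trans (Nat.pow_le_pow_right (by omega) he) h2
    refine ⟨z, h1, h2, h3x, ?_⟩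
    have h6 : x ≤ z ^ (2 * e) := by
      have h7 : z + 1 ≤ z ^ 2 := by nlinarith
      calc x ≤ (z + 1) ^ e := h5.le
        _ ≤ (z ^ 2) ^ e := Nat.pow_le_pow_left h7 _
        _ = z ^ (2 * e) := by rw [← pow_mul]
    have hx0 : 0 < x := lt_of_lt_of_le (pow_pos (by omega) 5) h3x
    have h8 : (x : ℝ) ≤ (z : ℝ) ^ (2 * e) := by exact_mod_cast h6
    have h9 := Real.log_le_log (by exact_mod_cast hx0) h8
    rw [Real.log_pow] at h9
    exact h9
  obtain ⟨z, h1, h2, h3, h4⟩ := key 422 (by norm_num) hx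
  exact ⟨z, h1, h2, h3, by
    have h5 : ((2 * 422 : ℕ) : ℝ) = 844 := by norm_num
    rw [h5] at h4
    exact h4⟩

/-- The size of `J`: eighth root of `log z`. -/
theorem exists_J (M : ℕ) : ∃ T : ℝ, ∀ y : ℝ, T ≤ y → ∃ J : ℕ, M ≤ J ∧ (J : ℝ) ^ 8 ≤ y ∧
    Real.log y ≤ 8 * Real.log ((J : ℝ) + 1) := by
  refine ⟨((M : ℝ) + 1) ^ 8, fun y hy => ?_⟩
  have hy1 : (1 : ℝ) ≤ y := le_trans (one_le_pow₀ (by linarith [Nat.cast_nonneg (α := ℝ) M])) hy
  have hy0 : 0 ≤ y := by linarith
  have hr : 0 ≤ y ^ (1 / 8 : ℝ) := Real.rpow_nonneg hy0 _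
  have hr8 : (y ^ (1 / 8 : ℝ)) ^ 8 = y := by
    rw [← Real.rpow_natCast, ← Real.rpow_mul hy0]
    norm_num
  refine ⟨⌊y ^ (1 / 8 : ℝ)⌋₊, ?_, ?_, ?_⟩
  · apply Nat.le_floor
    by_contra hcon
    have h1 : y ^ (1 / 8 : ℝ) < (M : ℝ) + 1 := by linarith
    have h2 := pow_lt_pow_left₀ h1 hr (show (8 : ℕ) ≠ 0 by norm_num)
    rw [hr8] at h2
    linarith
  · have h1 := Nat.floor_le hr
    calc ((⌊y ^ (1 / 8 : ℝ)⌋₊ : ℕ) : ℝ) ^ 8 ≤ (y ^ (1 / 8 : ℝ)) ^ 8 :=
          pow_le_pow_left₀ (Nat.cast_nonneg _) h1 8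
      _ = y := hr8
  · have h1 := (Nat.lt_floor_add_one (y ^ (1 / 8 : ℝ))).le
    have h2 : y ≤ (((⌊y ^ (1 / 8 : ℝ)⌋₊ : ℕ) : ℝ) + 1) ^ 8 := by
      calc y = (y ^ (1 / 8 : ℝ)) ^ 8 := hr8.symm
        _ ≤ _ := pow_le_pow_left₀ hr h1 8
    have h3 := Real.log_le_log (by linarith) h2
    rw [Real.log_pow] at h3
    exact_mod_cast h3

/-- For all `q ≥ 1`, `a` there is `c > 0` such that the number of integers `1 ≤ n ≤ x` with `n ≡ a`
modulo `q` for which there is `0 < k < n` such that `k φ(n - k)` is a square is at least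
`c x log log x / log x`, for all large `x`. -/
theorem result (q : ℕ) (hq : 1 ≤ q) (a : ℕ) : ∃ c : ℝ, 0 < c ∧ ∃ X : ℕ, ∀ x : ℕ, X ≤ x →
    c * x * Real.log (Real.log x) / Real.log x ≤ goodCount q a x := by
  classical
  have : NeZero q := ⟨by omega⟩
  obtain ⟨κ, hκ, N, hN⟩ := pi_lower q
  set E : ℕ := (a + q) * (1 + q ^ 2) with hE
  have hE0 : 0 < E := by
    rw [hE]
    positivity
  have hE0' : (0 : ℝ) < E := by exact_mod_cast hE0
  set G : ℕ := 7 + E with hG
  obtain ⟨T, hT⟩ := exists_J (2532 * G ^ 2)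
  refine ⟨κ / (32 * E), by positivity, ?_⟩
  set Z : ℕ := max (max (G + 1688) N)
    (max ⌈κ⌉₊ ⌈Real.exp (max T (max 844 (Real.exp (96 * E / κ))))⌉₊) with hZ
  have hZ2 : 2 ≤ Z := by
    have : G + 1688 ≤ Z := (le_max_left _ _).trans (le_max_left _ _)
    omega
  refine ⟨Z ^ 422, fun x hx => ?_⟩
  obtain ⟨z, hZz, hzx, hz5x, hLz⟩ := exists_z Z x hZ2 hx
  clear hx
  have hGz : G + 1688 ≤ z := ((le_max_left _ _).trans (le_max_left _ _)).trans hZz
  have hNz : N ≤ z := ((le_max_right _ _).trans (le_max_left _ _)).trans hZz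
  have hκz : κ ≤ (z : ℝ) := (Nat.le_ceil κ).trans (by
    exact_mod_cast ((le_max_left _ _).trans (le_max_right _ _)).trans hZz)
  have hez : Real.exp (max T (max 844 (Real.exp (96 * E / κ)))) ≤ z := (Nat.le_ceil _).trans (by
    exact_mod_cast ((le_max_right _ _).trans (le_max_right _ _)).trans hZz)
  have hz2 : 2 ≤ z := by omega
  have hz2' : (2 : ℝ) ≤ z := by exact_mod_cast hz2
  have hlz : 0 < Real.log z := Real.log_pos (by linarith)
  have hlz' : max T (max 844 (Real.exp (96 * E / κ))) ≤ Real.log z := by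
    rw [← Real.log_exp (max T (max 844 (Real.exp (96 * E / κ))))]
    exact Real.log_le_log (Real.exp_pos _) hez
  obtain ⟨J, hMJ, hJ8, hJlog⟩ := hT (Real.log z) ((le_max_left _ _).trans hlz')
  have hlz844 : 844 ≤ Real.log z := ((le_max_left _ _).trans (le_max_right _ _)).trans hlz'
  have hlzexp : Real.exp (96 * E / κ) ≤ Real.log z :=
    ((le_max_right _ _).trans (le_max_right _ _)).trans hlz'
  have hlogz : Real.log z ≤ z := (Real.log_le_sub_one_of_pos (by linarith)).trans (by linarith)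
  -- sizes
  have hG7 : 7 ≤ G := by omega
  have hJ1 : 1 ≤ J := by
    have : 1 ≤ 2532 * G ^ 2 := by
      have : 1 ≤ G ^ 2 := Nat.one_le_pow _ _ (by omega)
      omega
    omega
  have hJ1' : (1 : ℝ) ≤ J := by exact_mod_cast hJ1
  set P : ℕ := 6 + E * J + 1 with hP
  have hPGJ : (P : ℝ) ≤ G * J := by
    have : P ≤ G * J := by
      rw [hP, hG]
      nlinarith
    exact_mod_cast this
  have hMJ' : 2532 * (G : ℝ) ^ 2 ≤ J := by exact_mod_cast hMJ
  have hG0 : (7 : ℝ) ≤ G := by exact_mod_cast hG7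
  have hJ4 : 2532 * (J : ℝ) ^ 2 * (P : ℝ) ^ 2 ≤ Real.log z := by
    have hP0 : (0 : ℝ) ≤ P := Nat.cast_nonneg _
    calc 2532 * (J : ℝ) ^ 2 * (P : ℝ) ^ 2 ≤ 2532 * (J : ℝ) ^ 2 * (G * J) ^ 2 := by gcongr
      _ = (2532 * (G : ℝ) ^ 2) * J ^ 4 := by ring
      _ ≤ J * J ^ 4 := by gcongr
      _ = (J : ℝ) ^ 5 := by ring
      _ ≤ (J : ℝ) ^ 8 := pow_le_pow_right₀ hJ1' (by norm_num)
      _ ≤ Real.log z := hJ8
  have hJz : (J : ℝ) ≤ z := by
    have h1 : (J : ℝ) ≤ (J : ℝ) ^ 8 := le_self_pow₀ hJ1' (by norm_num)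
    linarith
  have hPz : P ≤ z := by
    have h1 : (P : ℝ) ≤ G * J := hPGJ
    have h2 : (G : ℝ) * J ≤ J ^ 8 := by
      have h3 : (G : ℝ) ≤ J := by nlinarith
      calc (G : ℝ) * J ≤ J * J := by gcongr
        _ = (J : ℝ) ^ 2 := by ring
        _ ≤ (J : ℝ) ^ 8 := pow_le_pow_right₀ hJ1' (by norm_num)
    have h4 : (P : ℝ) ≤ z := by linarith
    exact_mod_cast h4
  have hWP := W_pos P
  have hWP' : 1 / (P : ℝ) ≤ W P := by
    have := W_ge (6 + E * J)
    rw [hP]
    push_cast at this ⊢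
    exact this
  have hqP : ∀ j ∈ Finset.range J, AA q a j ≤ P := by
    intro j hj
    have h1 := AA_le q a j
    have h2 : j + 1 ≤ J := Finset.mem_range.1 hj
    have h3 : E * (j + 1) ≤ E * J := Nat.mul_le_mul_left _ h2
    rw [← hE] at h1
    omega
  have hc1 : ∀ j, 1 ≤ cc q a j := by
    intro j
    unfold cc
    nlinarith
  have hBA : ∀ j, BB q a j < AA q a j := by
    intro j
    have := hc1 j
    unfold BB AA
    omega
  have hcA : ∀ j, cc q a j ≤ AA q a j := by
    intro j
    unfold AA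
    omega
  have hinj : ∀ i j, cc q a i = cc q a j → i = j := by
    intro i j h
    unfold cc at h
    have h1 : q * (i + 1) = q * (j + 1) := by omega
    have := Nat.eq_of_mul_eq_mul_left (by omega) h1
    omega
  have hx1 : (32 : ℝ) ≤ x := by
    have h8 : 2 ^ 5 ≤ z ^ 5 := Nat.pow_le_pow_left hz2 5
    have : 32 ≤ x := by omega
    exact_mod_cast this
  have hz5x' : (z : ℝ) ^ 5 ≤ x := by exact_mod_cast hz5x
  set L : ℝ := Real.log x with hL
  have hLpos : 0 < L := Real.log_pos (by linarith)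
  have hLz5 : Real.log z ≤ L := by
    apply Real.log_le_log (by linarith)
    have h1 : (z : ℝ) ≤ (z : ℝ) ^ 5 := le_self_pow₀ (by linarith) (by norm_num)
    linarith
  -- the sets
  set S' : ℕ → Finset ℕ := fun j => S q x z (AA q a j) (BB q a j) with hS'
  set B : ℝ := 3 * x * (1 / (W P * Real.log z)) ^ 2 with hB
  have hB0 : 0 ≤ B := by positivity
  have hbonf := bonf S' B hB0 (Finset.range J) (by
    intro i hi j hj hne
    by_cases hBB : BB q a i = BB q a j
    · have hAA : AA q a i ≠ AA q a j := by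
        intro h
        apply hne
        apply hinj
        unfold AA at h
        unfold BB at hBB
        omega
      have hA1 : 1 ≤ AA q a j := (hc1 j).trans (hcA j)
      have he := inter_S_same q x z (AA q a i) (AA q a j) (BB q a j) hAA hA1
        ((hqP j hj).trans hPz)
      show ((S q x z (AA q a i) (BB q a i) ∩ S q x z (AA q a j) (BB q a j)).card : ℝ) ≤ B
      rw [hBB, he]
      simpa using hB0
    · exact inter_S q x z (AA q a i) (BB q a i) (AA q a j) (BB q a j) P hz2 (by omega) hPz hzx hBB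
        (hBA i) (hBA j) (hqP i hi) (hqP j hj))
  rw [Finset.card_range] at hbonf
  have hunion : ((Finset.range J).biUnion S').card ≤ goodCount q a x := by
    unfold goodCount
    apply Finset.card_le_card
    intro n hn
    obtain ⟨j, hj, hn'⟩ := Finset.mem_biUnion.1 hn
    rw [Finset.mem_filter, Finset.mem_Icc]
    have h1 := hqP j hj
    have h2 := hcA j
    have h3 := good_of_S (q := q) (c := cc q a j) hq (hc1 j) (by omega) hn'
    refine ⟨(mem_S.1 hn').1, h3.1.trans ?_, h3.2⟩
    unfold cc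
    exact (Nat.modEq_iff_dvd' (by omega)).2 ⟨j + 1, by omega⟩ |>.symm
  -- lower bounds for the sets
  have hlow : ∀ j ∈ Finset.range J, κ * ((x : ℝ) * (1 / (AA q a j : ℝ)) - 1) ≤
      (((S' j).card : ℝ) + (z + 1)) * L := by
    intro j hj
    have hA1 : 1 ≤ AA q a j := (hc1 j).trans (hcA j)
    have hAr : (1 : ℝ) ≤ (AA q a j : ℝ) := by exact_mod_cast hA1
    have h1 := card_S q x z (AA q a j) (BB q a j) (hBA j)
    set y : ℕ := x / (AA q a j) with hy
    have hNy : N ≤ y := by
      rw [hy, Nat.le_div_iff_mul_le (by omega)]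
      have := hqP j hj
      calc N * (AA q a j) ≤ z * z := Nat.mul_le_mul hNz (by omega)
        _ = z ^ 2 := by ring
        _ ≤ z ^ 5 := Nat.pow_le_pow_right (by omega) (by norm_num)
        _ ≤ x := hz5x
    have h2 := hN y hNy
    have h3 : x < AA q a j * (y + 1) := by
      have := Nat.div_add_mod x (AA q a j)
      have h4 := Nat.mod_lt x (show 0 < AA q a j by omega)
      rw [← hy] at this
      nlinarith
    have h5 : (x : ℝ) * (1 / (AA q a j : ℝ)) - 1 ≤ y := by
      have h6 : (x : ℝ) < (AA q a j : ℝ) * (y + 1) := by exact_mod_cast h3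
      rw [mul_one_div]
      have h8 : (x : ℝ) / (AA q a j : ℝ) ≤ y + 1 := by
        rw [div_le_iff₀ (by positivity)]
        linarith
      linarith
    have hylog : (piP (fun p => (p : ZMod q) = 1) (y : ℝ) : ℝ) * Real.log y ≤
        (piP (fun p => (p : ZMod q) = 1) (y : ℝ) : ℝ) * L := by
      apply mul_le_mul_of_nonneg_left _ (by positivity)
      rcases Nat.eq_zero_or_pos y with h0 | h0
      · rw [h0]
        simp only [Nat.cast_zero, Real.log_zero]
        exact hLpos.le
      · exact Real.log_le_log (by exact_mod_cast h0) (by exact_mod_cast Nat.div_le_self _ _)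
    have h9 : (piP (fun p => (p : ZMod q) = 1) (y : ℝ) : ℝ) ≤ ((S' j).card : ℝ) + (z + 1) := by
      exact_mod_cast h1
    have h10 := mul_le_mul_of_nonneg_right h9 hLpos.le
    have h11 : κ * ((x : ℝ) * (1 / (AA q a j : ℝ)) - 1) ≤ κ * y :=
      mul_le_mul_of_nonneg_left h5 hκ.le
    linarith
  have hsum := Finset.sum_le_sum hlow
  have hs1 : ∑ j ∈ Finset.range J, κ * ((x : ℝ) * (1 / (AA q a j : ℝ)) - 1) =
      κ * x * (∑ j ∈ Finset.range J, (1 / (AA q a j : ℝ))) - κ * J := by
    rw [← Finset.mul_sum, Finset.sum_sub_distrib, ← Finset.mul_sum,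
      Finset.sum_const, nsmul_eq_mul, Finset.card_range]
    ring
  have hs2 : ∑ j ∈ Finset.range J, (((S' j).card : ℝ) + (z + 1)) * L =
      (∑ j ∈ Finset.range J, ((S' j).card : ℝ)) * L + J * (z + 1) * L := by
    rw [← Finset.sum_mul, Finset.sum_add_distrib, Finset.sum_const, nsmul_eq_mul,
      Finset.card_range]
    ring
  rw [hs1, hs2] at hsum
  -- the errors
  have hz0 : (0 : ℝ) ≤ z := by linarith
  have h1688 : (1688 : ℝ) ≤ z := by
    have : 1688 ≤ z := by omega
    exact_mod_cast this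
  have he1 : κ * (J : ℝ) ≤ x := by
    calc κ * (J : ℝ) ≤ z * z := by gcongr
      _ = (z : ℝ) ^ 2 := by ring
      _ ≤ (z : ℝ) ^ 5 := pow_le_pow_right₀ (by linarith) (by norm_num)
      _ ≤ x := hz5x'
  have he2 : (J : ℝ) * (z + 1) * L ≤ x := by
    have h2 : L ≤ 844 * z := by linarith
    calc (J : ℝ) * (z + 1) * L ≤ z * (z + 1) * (844 * z) := by gcongr
      _ ≤ z * (2 * z) * (844 * z) := by gcongr; linarith
      _ = 1688 * z ^ 3 := by ring
      _ ≤ z * z ^ 3 := by gcongr
      _ = (z : ℝ) ^ 4 := by ring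
      _ ≤ (z : ℝ) ^ 5 := pow_le_pow_right₀ (by linarith) (by norm_num)
      _ ≤ x := hz5x'
  have he3 : (J : ℝ) ^ 2 * B * L ≤ x := by
    have hP0 : (0 : ℝ) < P := by
      have : 0 < P := by omega
      exact_mod_cast this
    have hW1 : 1 / (W P * Real.log z) ≤ P / Real.log z := by
      rw [div_le_div_iff₀ (by positivity) hlz]
      rw [div_le_iff₀ hP0] at hWP'
      nlinarith
    have h0 : 0 ≤ 1 / (W P * Real.log z) := by positivity
    have hB' : B ≤ 3 * x * (P / Real.log z) ^ 2 := by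
      rw [hB]
      have := pow_le_pow_left₀ h0 hW1 2
      gcongr
    calc (J : ℝ) ^ 2 * B * L ≤ (J : ℝ) ^ 2 * (3 * x * (P / Real.log z) ^ 2) * (844 * Real.log z) := by
          gcongr
      _ = x * ((2532 * (J : ℝ) ^ 2 * (P : ℝ) ^ 2) / Real.log z) := by
          field_simp
          ring
      _ ≤ x * 1 := by
          apply mul_le_mul_of_nonneg_left _ (by linarith)
          rw [div_le_one hlz]
          exact hJ4
      _ = x := mul_one _
  have hunion' : (((Finset.range J).biUnion S').card : ℝ) ≤ goodCount q a x := by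
    exact_mod_cast hunion
  have hfin : (∑ j ∈ Finset.range J, ((S' j).card : ℝ)) * L ≤
      (goodCount q a x + (J : ℝ) ^ 2 * B) * L := by
    apply mul_le_mul_of_nonneg_right _ hLpos.le
    linarith
  -- the main term
  have hlogL : Real.log L ≤ 2 * Real.log (Real.log z) := by
    have h1 : L ≤ Real.log z ^ 2 := by nlinarith
    have h2 := Real.log_le_log hLpos h1
    rw [Real.log_pow] at h2
    exact_mod_cast h2
  have hlogL2 : 96 * E / κ ≤ Real.log L := by
    rw [← Real.log_exp (96 * E / κ)]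
    exact Real.log_le_log (Real.exp_pos _) (hlzexp.trans hLz5)
  have hsumA := sum_fams q a J hq
  rw [← hE] at hsumA
  have hmain : κ / (16 * E) * Real.log L ≤ κ * (∑ j ∈ Finset.range J, (1 / (AA q a j : ℝ))) := by
    have h1 : Real.log L / 16 ≤ Real.log ((J : ℝ) + 1) := by linarith
    calc κ / (16 * E) * Real.log L = κ * ((Real.log L / 16) / E) := by
          field_simp
      _ ≤ κ * (Real.log ((J : ℝ) + 1) / E) := by gcongr
      _ ≤ _ := by gcongr
  have h3le : 3 ≤ κ / (32 * E) * Real.log L := by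
    rw [div_le_iff₀ hκ] at hlogL2
    rw [div_mul_eq_mul_div, le_div_iff₀ (by positivity)]
    linarith
  rw [div_le_iff₀ hLpos]
  have hx0 : (0 : ℝ) ≤ x := by linarith
  have h4 : κ / (16 * E) * Real.log L = 2 * (κ / (32 * E) * Real.log L) := by
    field_simp
    ring
  have h5 : (κ / (32 * E) * Real.log L + 3) * x ≤
      κ * (∑ j ∈ Finset.range J, (1 / (AA q a j : ℝ))) * x := by
    apply mul_le_mul_of_nonneg_right _ hx0
    linarith
  nlinarith

end Pool.Agent.Results.MP_030a1d_nt.AdmissibleInClasses
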